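import Pool.Agent.Lib.MP_825ff6_co.Basic

/-!
Fractional covers and packings by homothets of ratio `r` (finitely supported weights).
-/

set_option autoImplicit false

namespace Pool.Agent.Lib.MP_825ff6_co.Pr

open Set
open scoped Classical in
/-- The weights `w ≥ 0` on the centres `T` cover every point of `K` with total weight at least 1. -/
def FracCover {E : Type*} [AddCommGroup E] [Module ℝ E] (K : Set E) (r : ℝ) (T : Finset E)
    (w : E → ℝ) : Prop :=
  (∀ t, 0 ≤ w t) ∧ ∀ x ∈ K, 1 ≤ ∑ t ∈ T with x ∈ homothet K t r, w t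

open scoped Classical in
/-- The weights `v ≥ 0` on the points `S ⊆ K` give total weight at most 1 to every homothet. -/
def FracPack {E : Type*} [AddCommGroup E] [Module ℝ E] (K : Set E) (r : ℝ) (S : Finset E)
    (v : E → ℝ) : Prop :=
  (S : Set E) ⊆ K ∧ (∀ x, 0 ≤ v x) ∧ ∀ t, ∑ x ∈ S with x ∈ homothet K t r, v x ≤ 1

/-- `P` is a set of points of `K` no two of which lie in one homothet of ratio `r`. -/
def IsPack {E : Type*} [AddCommGroup E] [Module ℝ E] (K : Set E) (r : ℝ) (P : Finset E) : Prop :=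
  (P : Set E) ⊆ K ∧ ∀ t : E, ∀ x ∈ P, ∀ y ∈ P, x ∈ homothet K t r → y ∈ homothet K t r → x = y

end Pool.Agent.Lib.MP_825ff6_co.Pr
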