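import Mathlib

/-!
Linear programming duality for a finite 0-1 matrix: the fractional covering number equals the fractional packing number
(by the minimax theorem).
-/

set_option autoImplicit false

namespace Pool.Agent.Lib.MP_825ff6_co.Pr

open scoped Classical in
theorem finite_duality {I J : Type*} [Fintype I] [Fintype J] (R : I → J → Prop)
    (h : ∀ i, ∃ j, R i j) :
    ∃ (μ : J → ℝ) (ν : I → ℝ), (∀ j, 0 ≤ μ j) ∧ (∀ i, 0 ≤ ν i) ∧
      (∀ i, 1 ≤ ∑ j with R i j, μ j) ∧ (∀ j, ∑ i with R i j, ν i ≤ 1) ∧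
      ∑ j, μ j ≤ ∑ i, ν i := by
  rcases isEmpty_or_nonempty I with hI | hI
  · exact ⟨0, 0, fun _ => le_rfl, fun _ => le_rfl, fun i => (hI.false i).elim, fun j => by simp,
      by simp⟩
  obtain ⟨i₀⟩ := id hI
  obtain ⟨j₀, -⟩ := h i₀
  have hJ : Nonempty J := ⟨j₀⟩
  set f : (I → ℝ) → (J → ℝ) → ℝ := fun n m => ∑ i, ∑ j with R i j, n i * m j with hf
  have hXne : (stdSimplex ℝ I).Nonempty := ⟨_, single_mem_stdSimplex ℝ i₀⟩
  have hYne : (stdSimplex ℝ J).Nonempty := ⟨_, single_mem_stdSimplex ℝ j₀⟩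
  have hf1 : ∀ (x y : I → ℝ) (a b : ℝ) (m : J → ℝ), f (a • x + b • y) m = a * f x m + b * f y m := by
    intro x y a b m
    simp only [hf, Finset.mul_sum, ← Finset.sum_add_distrib, Pi.add_apply, Pi.smul_apply,
      smul_eq_mul]
    refine Finset.sum_congr rfl fun i _ => Finset.sum_congr rfl fun j _ => by ring
  have hf2 : ∀ (x y : J → ℝ) (a b : ℝ) (n : I → ℝ), f n (a • x + b • y) = a * f n x + b * f n y := by
    intro x y a b n
    simp only [hf, Finset.mul_sum, ← Finset.sum_add_distrib, Pi.add_apply, Pi.smul_apply,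
      smul_eq_mul]
    refine Finset.sum_congr rfl fun i _ => Finset.sum_congr rfl fun j _ => by ring
  have hc1 : ∀ m, Continuous fun n => f n m := fun m => by
    simp only [hf]
    fun_prop
  have hc2 : ∀ n, Continuous fun m => f n m := fun n => by
    simp only [hf]
    fun_prop
  obtain ⟨a, ha, b, hb, hab⟩ := Sion.exists_isSaddlePointOn (f := f) hXne
    (convex_stdSimplex ℝ I) (isCompact_stdSimplex ℝ I)
    (fun m _ => (hc1 m).lowerSemicontinuous.lowerSemicontinuousOn _)
    (fun m _ => by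
      refine ConvexOn.quasiconvexOn ⟨convex_stdSimplex ℝ I, fun x _ y _ s t _ _ _ => ?_⟩
      exact (hf1 x y s t m).le)
    (convex_stdSimplex ℝ J) hYne (isCompact_stdSimplex ℝ J)
    (fun n _ => (hc2 n).upperSemicontinuous.upperSemicontinuousOn _)
    (fun n _ => by
      refine ConcaveOn.quasiconcaveOn ⟨convex_stdSimplex ℝ J, fun x _ y _ s t _ _ _ => ?_⟩
      exact (hf2 x y s t n).ge)
  set v : ℝ := f a b with hv
  have hA : ∀ j, ∑ i with R i j, a i ≤ v := by
    intro j
    have h1 := hab a ha (Pi.single j 1) (single_mem_stdSimplex ℝ j)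
    refine le_trans (le_of_eq ?_) h1
    simp only [hf]
    rw [Finset.sum_filter]
    refine Finset.sum_congr rfl fun i _ => ?_
    by_cases hR : R i j
    · rw [if_pos hR, Finset.sum_eq_single j]
      · simp
      · intro k _ hk
        simp [Pi.single_eq_of_ne hk]
      · intro hn
        exact absurd (Finset.mem_filter.2 ⟨Finset.mem_univ _, hR⟩) hn
    · rw [if_neg hR, Finset.sum_eq_zero]
      intro k hk
      have hk' := (Finset.mem_filter.1 hk).2
      have : k ≠ j := fun e => hR (e ▸ hk')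
      simp [Pi.single_eq_of_ne this]
  have hB : ∀ i, v ≤ ∑ j with R i j, b j := by
    intro i
    have h1 := hab (Pi.single i 1) (single_mem_stdSimplex ℝ i) b hb
    refine le_trans h1 (le_of_eq ?_)
    simp only [hf]
    rw [Finset.sum_eq_single i]
    · refine Finset.sum_congr rfl fun j _ => ?_
      simp
    · intro k _ hk
      refine Finset.sum_eq_zero fun j _ => ?_
      simp [Pi.single_eq_of_ne hk]
    · intro hn
      exact absurd (Finset.mem_univ _) hn
  have hvpos : 0 < v := by
    obtain ⟨i, -, hi⟩ : ∃ i ∈ Finset.univ, 0 < a i := by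
      by_contra hcon
      push Not at hcon
      have h1 := ha.2
      have h2 : ∑ i, a i ≤ 0 := Finset.sum_nonpos fun i hi => hcon i hi
      linarith
    obtain ⟨j, hj⟩ := h i
    refine lt_of_lt_of_le hi (le_trans ?_ (hA j))
    exact Finset.single_le_sum (f := fun i => a i) (fun k _ => ha.1 k)
      (Finset.mem_filter.2 ⟨Finset.mem_univ _, hj⟩)
  refine ⟨fun j => b j / v, fun i => a i / v, fun j => div_nonneg (hb.1 j) hvpos.le,
    fun i => div_nonneg (ha.1 i) hvpos.le, fun i => ?_, fun j => ?_, ?_⟩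
  · rw [← Finset.sum_div, le_div_iff₀ hvpos, one_mul]
    exact hB i
  · rw [← Finset.sum_div, div_le_iff₀ hvpos, one_mul]
    exact hA j
  · rw [← Finset.sum_div, ← Finset.sum_div, ha.2, hb.2]

end Pool.Agent.Lib.MP_825ff6_co.Pr
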