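import Pool.Agent.Lib.MP_825ff6_co.Pr.Base

/-!
JOB Fibre. Covers and packings of a product, four inequalities.

Proof in words. Note `homothet (K₁ ×ˢ K₂) (t₁, t₂) r = homothet K₁ t₁ r ×ˢ homothet K₂ t₂ r`.
(1) `mul_sum_le_card_fst`: for `y ∈ S` (a point of `K₂`) let `T_y = T.filter (y ∈ homothet K₂ t.2 r)`; the first coordinates of `T_y` are a
cover of `K₁` (apply `hT` to `(x, y)`), so `coveringNumber K₁ r ≤ (T_y.image Prod.fst).card ≤ T_y.card` (`Nat.sInf_le`). Sum with weights: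
`coveringNumber K₁ r * ∑ v y ≤ ∑_{y ∈ S} v y * T_y.card = ∑_{t ∈ T} ∑_{y ∈ S, y ∈ homothet K₂ t.2 r} v y ≤ T.card`.
(2) `card_le_sum_mul_fst`: every `p ∈ P` has `p.1 ∈ K₁`, so `P.card ≤ ∑_{p ∈ P} ∑_{t ∈ T, p.1 ∈ homothet K₁ t r} w t
= ∑_{t ∈ T} w t * (P.filter (p.1 ∈ homothet K₁ t r)).card`, and for fixed `t` the second coordinates of these `p` are pairwise different
(two of them with the same second coordinate `y` would be in the homothet with centre `(t, y - r k)`, `k ∈ K₂` with ... simply: choose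
`k = y`: `y ∈ homothet K₂ (y - r y) r`, as `y ∈ K₂`) and form a packing of `K₂` (if `p.2, q.2 ∈ homothet K₂ t₂ r`, then `p, q` are in
`homothet (K₁ ×ˢ K₂) (t, t₂) r`, so `p = q`). So the cardinality is at most `p₂`.
(3), (4): the same with the factors exchanged.
-/

set_option autoImplicit false

namespace Pool.Agent.Lib.MP_825ff6_co.Pr

open Set

variable {E F : Type*} [NormedAddCommGroup E] [NormedSpace ℝ E] [NormedAddCommGroup F]
  [NormedSpace ℝ F] {K₁ : Set E} {K₂ : Set F} {r : ℝ}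

private theorem fibre_mem_prod {t z : E × F} :
    z ∈ homothet (K₁ ×ˢ K₂) t r ↔ z.1 ∈ homothet K₁ t.1 r ∧ z.2 ∈ homothet K₂ t.2 r := by
  constructor
  · rintro ⟨k, hk, rfl⟩
    exact ⟨⟨k.1, hk.1, rfl⟩, ⟨k.2, hk.2, rfl⟩⟩
  · rintro ⟨⟨k₁, h₁, e₁⟩, ⟨k₂, h₂, e₂⟩⟩
    exact ⟨(k₁, k₂), ⟨h₁, h₂⟩, Prod.ext e₁ e₂⟩

private theorem fibre_self_mem {y : F} (hy : y ∈ K₂) : y ∈ homothet K₂ (y - r • y) r :=
  ⟨y, hy, by simp⟩

private theorem fibre_self_mem' {y : E} (hy : y ∈ K₁) : y ∈ homothet K₁ (y - r • y) r :=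
  ⟨y, hy, by simp⟩

open scoped Classical in
private theorem fibre_gen1 {ι Y : Type*} (T : Finset ι) (S : Finset Y) (v : Y → ℝ)
    (b : ι → Y → Prop) (N : ℕ) (hv : ∀ y, 0 ≤ v y)
    (h1 : ∀ y ∈ S, N ≤ (T.filter fun t => b t y).card)
    (h2 : ∀ t ∈ T, ∑ y ∈ S with b t y, v y ≤ 1) : (N : ℝ) * ∑ y ∈ S, v y ≤ T.card := by
  have e1 : (N : ℝ) * ∑ y ∈ S, v y ≤ ∑ y ∈ S, ∑ t ∈ T with b t y, v y := by
    rw [Finset.mul_sum]
    refine Finset.sum_le_sum fun y hy => ?_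
    rw [Finset.sum_const, nsmul_eq_mul]
    exact mul_le_mul_of_nonneg_right (Nat.cast_le.2 (h1 y hy)) (hv y)
  have e2 : ∑ y ∈ S, ∑ t ∈ T with b t y, v y = ∑ t ∈ T, ∑ y ∈ S with b t y, v y := by
    simp only [Finset.sum_filter]
    exact Finset.sum_comm
  rw [e2] at e1
  refine e1.trans ((Finset.sum_le_sum h2).trans (le_of_eq ?_))
  rw [Finset.sum_const, nsmul_eq_mul, mul_one]

open scoped Classical in
private theorem fibre_gen2 {ι C : Type*} (P : Finset ι) (T : Finset C) (w : C → ℝ)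
    (a : ι → C → Prop) (p : ℕ) (hw : ∀ t, 0 ≤ w t)
    (h1 : ∀ q ∈ P, 1 ≤ ∑ t ∈ T with a q t, w t)
    (h2 : ∀ t ∈ T, (P.filter fun q => a q t).card ≤ p) : (P.card : ℝ) ≤ (∑ t ∈ T, w t) * p := by
  have e1 : (P.card : ℝ) ≤ ∑ q ∈ P, ∑ t ∈ T with a q t, w t := by
    have := Finset.sum_le_sum h1
    rwa [Finset.sum_const, nsmul_eq_mul, mul_one] at this
  have e2 : ∑ q ∈ P, ∑ t ∈ T with a q t, w t = ∑ t ∈ T, ∑ q ∈ P with a q t, w t := by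
    simp only [Finset.sum_filter]
    exact Finset.sum_comm
  rw [e2] at e1
  refine e1.trans ?_
  rw [Finset.sum_mul]
  refine Finset.sum_le_sum fun t ht => ?_
  rw [Finset.sum_const, nsmul_eq_mul, mul_comm]
  exact mul_le_mul_of_nonneg_left (Nat.cast_le.2 (h2 t ht)) (hw t)

theorem mul_sum_le_card_fst (T : Finset (E × F))
    (hT : ∀ z ∈ K₁ ×ˢ K₂, ∃ t ∈ T, z ∈ homothet (K₁ ×ˢ K₂) t r) {S : Finset F} {v : F → ℝ}
    (hv : FracPack K₂ r S v) : (coveringNumber K₁ r : ℝ) * ∑ y ∈ S, v y ≤ T.card := by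
  classical
  refine fibre_gen1 T S v (fun t y => y ∈ homothet K₂ t.2 r) _ hv.2.1 ?_ ?_
  · intro y hy
    have h1 : coveringNumber K₁ r ≤
        ((T.filter fun t => y ∈ homothet K₂ t.2 r).image Prod.fst).card := by
      refine Nat.sInf_le ⟨_, rfl, fun x hx => ?_⟩
      obtain ⟨t, ht, hz⟩ := hT (x, y) ⟨hx, hv.1 hy⟩
      obtain ⟨hz1, hz2⟩ := fibre_mem_prod.1 hz
      exact ⟨t.1, Finset.mem_image_of_mem _ (Finset.mem_filter.2 ⟨ht, hz2⟩), hz1⟩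
    exact h1.trans Finset.card_image_le
  · intro t _
    exact hv.2.2 t.2

theorem mul_sum_le_card_snd (T : Finset (E × F))
    (hT : ∀ z ∈ K₁ ×ˢ K₂, ∃ t ∈ T, z ∈ homothet (K₁ ×ˢ K₂) t r) {S : Finset E} {v : E → ℝ}
    (hv : FracPack K₁ r S v) : (coveringNumber K₂ r : ℝ) * ∑ y ∈ S, v y ≤ T.card := by
  classical
  refine fibre_gen1 T S v (fun t y => y ∈ homothet K₁ t.1 r) _ hv.2.1 ?_ ?_
  · intro y hy
    have h1 : coveringNumber K₂ r ≤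
        ((T.filter fun t => y ∈ homothet K₁ t.1 r).image Prod.snd).card := by
      refine Nat.sInf_le ⟨_, rfl, fun x hx => ?_⟩
      obtain ⟨t, ht, hz⟩ := hT (y, x) ⟨hv.1 hy, hx⟩
      obtain ⟨hz1, hz2⟩ := fibre_mem_prod.1 hz
      exact ⟨t.2, Finset.mem_image_of_mem _ (Finset.mem_filter.2 ⟨ht, hz1⟩), hz2⟩
    exact h1.trans Finset.card_image_le
  · intro t _
    exact hv.2.2 t.1

theorem card_le_sum_mul_fst {P : Finset (E × F)} (hP : IsPack (K₁ ×ˢ K₂) r P) {T : Finset E}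
    {w : E → ℝ} (hw : FracCover K₁ r T w) {p₂ : ℕ}
    (hp : ∀ Q : Finset F, IsPack K₂ r Q → Q.card ≤ p₂) :
    (P.card : ℝ) ≤ (∑ t ∈ T, w t) * p₂ := by
  classical
  refine fibre_gen2 P T w (fun q t => q.1 ∈ homothet K₁ t r) p₂ hw.1 (fun q hq => hw.2 q.1 (hP.1 hq).1) ?_
  intro t _
  have hinj : Set.InjOn Prod.snd ((P.filter fun q => q.1 ∈ homothet K₁ t r : Finset (E × F)) : Set (E × F)) := by
    intro q hq q' hq' e
    obtain ⟨h1, h2⟩ := Finset.mem_filter.1 (Finset.mem_coe.1 hq)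
    obtain ⟨h3, h4⟩ := Finset.mem_filter.1 (Finset.mem_coe.1 hq')
    refine hP.2 (t, q.2 - r • q.2) q h1 q' h3 (fibre_mem_prod.2 ⟨h2, fibre_self_mem (hP.1 h1).2⟩)
      (fibre_mem_prod.2 ⟨h4, ?_⟩)
    rw [← e]
    exact fibre_self_mem (hP.1 h1).2
  rw [← Finset.card_image_of_injOn hinj]
  apply hp
  refine ⟨?_, ?_⟩
  · intro y hy
    obtain ⟨q, hq, rfl⟩ := Finset.mem_image.1 (Finset.mem_coe.1 hy)
    exact (hP.1 (Finset.mem_filter.1 hq).1).2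
  · intro t₂ x hx y hy hxt hyt
    obtain ⟨q, hq, rfl⟩ := Finset.mem_image.1 hx
    obtain ⟨q', hq', rfl⟩ := Finset.mem_image.1 hy
    obtain ⟨h1, h2⟩ := Finset.mem_filter.1 hq
    obtain ⟨h3, h4⟩ := Finset.mem_filter.1 hq'
    rw [hP.2 (t, t₂) q h1 q' h3 (fibre_mem_prod.2 ⟨h2, hxt⟩) (fibre_mem_prod.2 ⟨h4, hyt⟩)]

theorem card_le_sum_mul_snd {P : Finset (E × F)} (hP : IsPack (K₁ ×ˢ K₂) r P) {T : Finset F}
    {w : F → ℝ} (hw : FracCover K₂ r T w) {p₁ : ℕ}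
    (hp : ∀ Q : Finset E, IsPack K₁ r Q → Q.card ≤ p₁) :
    (P.card : ℝ) ≤ (∑ t ∈ T, w t) * p₁ := by
  classical
  refine fibre_gen2 P T w (fun q t => q.2 ∈ homothet K₂ t r) p₁ hw.1 (fun q hq => hw.2 q.2 (hP.1 hq).2) ?_
  intro t _
  have hinj : Set.InjOn Prod.fst ((P.filter fun q => q.2 ∈ homothet K₂ t r : Finset (E × F)) : Set (E × F)) := by
    intro q hq q' hq' e
    obtain ⟨h1, h2⟩ := Finset.mem_filter.1 (Finset.mem_coe.1 hq)
    obtain ⟨h3, h4⟩ := Finset.mem_filter.1 (Finset.mem_coe.1 hq')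
    refine hP.2 (q.1 - r • q.1, t) q h1 q' h3 (fibre_mem_prod.2 ⟨fibre_self_mem' (hP.1 h1).1, h2⟩)
      (fibre_mem_prod.2 ⟨?_, h4⟩)
    rw [← e]
    exact fibre_self_mem' (hP.1 h1).1
  rw [← Finset.card_image_of_injOn hinj]
  apply hp
  refine ⟨?_, ?_⟩
  · intro y hy
    obtain ⟨q, hq, rfl⟩ := Finset.mem_image.1 (Finset.mem_coe.1 hy)
    exact (hP.1 (Finset.mem_filter.1 hq).1).1
  · intro t₁ x hx y hy hxt hyt
    obtain ⟨q, hq, rfl⟩ := Finset.mem_image.1 hx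
    obtain ⟨q', hq', rfl⟩ := Finset.mem_image.1 hy
    obtain ⟨h1, h2⟩ := Finset.mem_filter.1 hq
    obtain ⟨h3, h4⟩ := Finset.mem_filter.1 hq'
    rw [hP.2 (t₁, t) q h1 q' h3 (fibre_mem_prod.2 ⟨hxt, h2⟩) (fibre_mem_prod.2 ⟨hyt, h4⟩)]

end Pool.Agent.Lib.MP_825ff6_co.Pr
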