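import Pool.Agent.Lib.MP_825ff6_co.Pr.Base

/-!
JOB Left. Semicontinuity of the covering number.

Proof in words. `K` is nonempty. Let `r_m = r + (1 - r) / (m + 2)`, decreasing to `r`. By `coveringNumber_spec` (Basic) there is for
every `m` a finset `T_m` with at most `p` centres covering `K` with ratio `r_m`. `p ≥ 1` because `K` is nonempty. Choose functions
`c_m : Fin p → E` such that every `x ∈ K` is in `homothet K (c_m i) r_m` for some `i`, and with values in the compact set
`B = {x - s • k | x ∈ K, k ∈ K, s ∈ [0, 1]}` (centres of homothets not meeting `K` may be replaced by one that does; a homothet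
`t + r_m K` which meets `K` has `t = x - r_m k ∈ B`). By compactness of `Fin p → B` (`isCompact_univ_pi`, `tendsto_subseq`; or an ultrafilter as in
Limit.lean) pass to a subsequence with `c_m → c`. Let `x ∈ K`: for each `m` there are `i_m` and `k_m ∈ K` with
`x = c_m i_m + r_m k_m`; pass to a further subsequence with `i_m = i` constant (pigeonhole / `Fin p` is compact) and `k_m → k ∈ K`. Then
`x = c i + r k`. So `Finset.image c univ` covers `K` with ratio `r` and has at most `p` elements: `coveringNumber K r ≤ p`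
(`Nat.sInf_le`).
-/

set_option autoImplicit false

namespace Pool.Agent.Lib.MP_825ff6_co.Pr

open Set

private theorem left_compact {E : Type*} [NormedAddCommGroup E] [NormedSpace ℝ E]
    {K : Set E} (hk : IsCompact K) :
    IsCompact ((fun q : E × E × ℝ => q.1 - q.2.2 • q.2.1) '' (K ×ˢ K ×ˢ Icc (0 : ℝ) 1)) := by
  refine (hk.prod (hk.prod isCompact_Icc)).image ?_
  fun_prop

/-- centres indexed by `Fin p`, with values in a set `B` which contains all useful centres -/
private theorem left_centres {E : Type*} [NormedAddCommGroup E] [NormedSpace ℝ E]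
    {K B : Set E} (hk : IsCompact K) (hi : (interior K).Nonempty) (hBne : B.Nonempty)
    {r : ℝ} (hr : 0 < r) {p : ℕ} (hp : coveringNumber K r ≤ p)
    (hB : ∀ x ∈ K, ∀ t : E, x ∈ homothet K t r → t ∈ B) :
    ∃ c : Fin p → E, (∀ i, c i ∈ B) ∧ ∀ x ∈ K, ∃ i, x ∈ homothet K (c i) r := by
  classical
  obtain ⟨T, hT, hcov⟩ := coveringNumber_spec hk hi hr
  obtain ⟨b0, hb0⟩ := hBne
  have hcard : Fintype.card T ≤ Fintype.card (Fin p) := by
    rw [Fintype.card_coe, Fintype.card_fin, hT]; exact hp
  obtain ⟨e⟩ := Function.Embedding.nonempty_of_card_le hcard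
  refine ⟨fun i => if h : ∃ t : T, e t = i ∧ (t : E) ∈ B then (h.choose : E) else b0, ?_, ?_⟩
  · intro i
    simp only
    split_ifs with h
    · exact h.choose_spec.2
    · exact hb0
  · intro x hx
    obtain ⟨t, ht, hxt⟩ := hcov x hx
    have htB := hB x hx t hxt
    refine ⟨e ⟨t, ht⟩, ?_⟩
    have h : ∃ t' : T, e t' = e ⟨t, ht⟩ ∧ (t' : E) ∈ B := ⟨⟨t, ht⟩, rfl, htB⟩
    simp only [dif_pos h]
    have h1 : h.choose = ⟨t, ht⟩ := e.injective h.choose_spec.1
    rw [h1]
    exact hxt

theorem coveringNumber_le_of_forall {E : Type*} [NormedAddCommGroup E] [NormedSpace ℝ E]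
    {K : Set E} (hk : IsCompact K) (hi : (interior K).Nonempty) {r : ℝ} (hr : 0 < r) (hr1 : r < 1)
    {p : ℕ} (h : ∀ r' : ℝ, r < r' → r' < 1 → coveringNumber K r' ≤ p) :
    coveringNumber K r ≤ p := by
  classical
  have hKne : K.Nonempty := hi.mono interior_subset
  obtain ⟨x0, hx0⟩ := hKne
  set B := (fun q : E × E × ℝ => q.1 - q.2.2 • q.2.1) '' (K ×ˢ K ×ˢ Icc (0 : ℝ) 1) with hBdef
  have hBc : IsCompact B := left_compact hk
  have hBne : B.Nonempty := ⟨x0 - (0 : ℝ) • x0, (x0, x0, 0), ⟨hx0, hx0, by simp⟩, rfl⟩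
  set R : ℕ → ℝ := fun m => r + (1 - r) * (1 / ((m : ℝ) + 2)) with hR
  have hpos : ∀ m : ℕ, 0 < 1 / ((m : ℝ) + 2) := fun m => by positivity
  have hlt1 : ∀ m : ℕ, 1 / ((m : ℝ) + 2) < 1 := fun m => by
    rw [div_lt_one (by positivity)]
    have : (0 : ℝ) ≤ m := Nat.cast_nonneg m
    linarith
  have hR1 : ∀ m, r < R m := fun m => by
    have := mul_pos (sub_pos.mpr hr1) (hpos m)
    simp only [hR]; linarith
  have hR2 : ∀ m, R m < 1 := fun m => by
    have := mul_lt_mul_of_pos_left (hlt1 m) (sub_pos.mpr hr1)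
    simp only [hR]; linarith
  have hRlim : Filter.Tendsto R Filter.atTop (nhds r) := by
    have h1 : Filter.Tendsto (fun m : ℕ => 1 / ((m : ℝ) + 2)) Filter.atTop (nhds 0) := by
      have h2 : Filter.Tendsto (fun m : ℕ => (m : ℝ) + 2) Filter.atTop Filter.atTop :=
        Filter.tendsto_atTop_add_const_right _ _ tendsto_natCast_atTop_atTop
      have h3 := h2.inv_tendsto_atTop
      refine h3.congr fun m => ?_
      rw [one_div]
      rfl
    have h3 := (h1.const_mul (1 - r)).const_add r
    simpa [hR] using h3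
  have hcen : ∀ m, ∃ c : Fin p → E, (∀ i, c i ∈ B) ∧ ∀ x ∈ K, ∃ i, x ∈ homothet K (c i) (R m) := by
    intro m
    refine left_centres hk hi hBne (hr.trans (hR1 m)) (h (R m) (hR1 m) (hR2 m)) ?_
    rintro x hx t ⟨k, hkK, hxe⟩
    refine ⟨(x, k, R m), ⟨hx, hkK, (hr.trans (hR1 m)).le, (hR2 m).le⟩, ?_⟩
    simp only
    rw [hxe]
    abel
  choose c hcB hcov using hcen
  set U : Ultrafilter ℕ := Filter.hyperfilter ℕ with hU
  have hUat : (U : Filter ℕ) ≤ Filter.atTop := Nat.hyperfilter_le_atTop
  have hlim : ∀ i, ∃ a ∈ B, Filter.Tendsto (fun m => c m i) U (nhds a) := by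
    intro i
    have := hBc.ultrafilter_le_nhds (U.map fun m => c m i) (by
      rw [Filter.le_principal_iff, Ultrafilter.coe_map]
      exact Filter.mem_map.mpr (Filter.mem_of_superset Filter.univ_mem (fun m _ => hcB m i)))
    exact this
  choose a haB ha using hlim
  refine le_trans (Nat.sInf_le ⟨Finset.univ.image a, rfl, ?_⟩)
    (Finset.card_image_le.trans (by simp))
  intro x hx
  have hx' : ∀ m, ∃ i, x ∈ homothet K (c m i) (R m) := fun m => hcov m x hx
  choose I hI using hx'
  have hI' : ∀ m, ∃ k ∈ K, x = c m (I m) + R m • k := hI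
  choose k hkK hke using hI'
  obtain ⟨i, _, hi'⟩ := isCompact_univ.ultrafilter_le_nhds (U.map I) (by simp)
  rw [nhds_discrete] at hi'
  have hev : ∀ᶠ m in (U : Filter ℕ), I m = i := by
    have h1 : {i} ∈ (pure i : Filter (Fin p)) := by simp
    exact hi' h1
  obtain ⟨k0, hk0, hk0'⟩ := hk.ultrafilter_le_nhds (U.map k) (by
    rw [Filter.le_principal_iff, Ultrafilter.coe_map]
    exact Filter.mem_map.mpr (Filter.mem_of_superset Filter.univ_mem (fun m _ => hkK m)))
  have hk0'' : Filter.Tendsto k U (nhds k0) := hk0'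
  refine ⟨a i, Finset.mem_image_of_mem a (Finset.mem_univ i), k0, hk0, ?_⟩
  have h1 : Filter.Tendsto (fun m => c m i + R m • k m) U (nhds (a i + r • k0)) :=
    (ha i).add ((hRlim.mono_left hUat).smul hk0'')
  have h2 : Filter.Tendsto (fun _ : ℕ => x) U (nhds (a i + r • k0)) := by
    refine h1.congr' ?_
    filter_upwards [hev] with m hm
    rw [← hm]
    exact (hke m).symm
  exact tendsto_nhds_unique tendsto_const_nhds h2

end Pool.Agent.Lib.MP_825ff6_co.Pr
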