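import Pool.Agent.Lib.MP_825ff6_co.Pr.Base
import Pool.Agent.Lib.MP_825ff6_co.Pr.Dual

/-!
JOB Net. A fractional cover at the larger ratio and a fractional packing at the smaller ratio with (at least) the same weight.

Proof in words. Let `k₀ ∈ interior K` and `U = (r' - r) • (interior K - k₀)` (an open neighbourhood of 0: the set of
`(r' - r) • (k - k₀)`, `k ∈ interior K`). By compactness there is a finite `D ⊆ K` with `K ⊆ ⋃ d ∈ D, d + U`. For `t : E` let
`A t = D.filter (· ∈ homothet K t r)`; there are finitely many values: let `J` be the (finite) type of subsets of `D` (as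
`Finset`s in `D.powerset`) of the form `A t`, choose `t_j` with `A (t_j) = j`. Apply `finite_duality` with `I = D` (subtype), `R d j` iff
`d ∈ j`; every `d ∈ D` is in `A (d - r k)` for any `k ∈ K`, so the hypothesis holds. Get `μ`, `ν`. Packing: `S = D`, `v = ν` (extended by
zero); for `t : E` the sum over `x ∈ D` in `homothet K t r` is the sum over `A t`, at most 1. Cover at ratio `r'`: centres
`t_j - (r' - r) k₀` (if several `j` give the same centre add the weights: `w c = ∑_{j : t_j - (r'-r) k₀ = c} μ j`,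
`T` = image). If `x ∈ K`, choose `d ∈ D` and `k ∈ K` with `x = d + (r' - r) (k - k₀)`; if `d ∈ homothet K t_j r`, `d = t_j + r k'`, then
`x = t_j - (r' - r) k₀ + (r k' + (r' - r) k)` and `r k' + (r' - r) k = r' k''` with `k'' ∈ K` by convexity. So the weight of the homothets
containing `x` is at least that of the `j ∋ d`, at least 1.
-/

set_option autoImplicit false

namespace Pool.Agent.Lib.MP_825ff6_co.Pr

open Set

theorem exists_cover_pack {E : Type*} [NormedAddCommGroup E] [NormedSpace ℝ E] {K : Set E}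
    (hc : Convex ℝ K) (hk : IsCompact K) (hi : (interior K).Nonempty) {r r' : ℝ} (hr : 0 < r)
    (hrr : r < r') :
    ∃ (T : Finset E) (w : E → ℝ) (S : Finset E) (v : E → ℝ),
      FracCover K r' T w ∧ FracPack K r S v ∧ ∑ t ∈ T, w t ≤ ∑ x ∈ S, v x := by
  classical
  obtain ⟨k₀, hk₀⟩ := hi
  obtain ⟨ρ, hρ, hball⟩ := Metric.isOpen_iff.1 isOpen_interior k₀ hk₀
  have hδ : 0 < r' - r := by linarith
  obtain ⟨D₀, hD₀K, hD₀f, hD₀c⟩ := hk.finite_cover_balls (mul_pos hδ hρ)
  obtain ⟨D, hD⟩ : ∃ D : Finset E, (D : Set E) = D₀ := ⟨hD₀f.toFinset, hD₀f.coe_toFinset⟩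
  have hDK : ∀ d ∈ D, d ∈ K := fun d hd => hD₀K (hD ▸ Finset.mem_coe.2 hd)
  -- every point of `K` is `d + (r' - r) • (k - k₀)`
  have hnet : ∀ x ∈ K, ∃ d ∈ D, ∃ k ∈ K, x = d + (r' - r) • (k - k₀) := by
    intro x hx
    obtain ⟨d, hd, hxd⟩ := mem_iUnion₂.1 (hD₀c hx)
    refine ⟨d, Finset.mem_coe.1 (hD ▸ hd), k₀ + (r' - r)⁻¹ • (x - d), ?_, ?_⟩
    · apply interior_subset
      apply hball
      rw [Metric.mem_ball, dist_eq_norm, add_sub_cancel_left, norm_smul, norm_inv, Real.norm_eq_abs,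
        abs_of_pos hδ, inv_mul_lt_iff₀ hδ, ← dist_eq_norm]
      exact hxd
    · rw [add_sub_cancel_left, smul_smul, mul_inv_cancel₀ hδ.ne', one_smul, add_sub_cancel]
  -- the traces of the homothets on `D`
  let A : E → Finset E := fun t => D.filter fun x => x ∈ homothet K t r
  let J := {j : Finset E // j ∈ D.powerset.filter fun j => ∃ t, A t = j}
  have hAJ : ∀ t, A t ∈ D.powerset.filter fun j => ∃ t, A t = j := fun t =>
    Finset.mem_filter.2 ⟨Finset.mem_powerset.2 (Finset.filter_subset _ _), t, rfl⟩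
  have hc' : ∀ j : J, ∃ t, A t = j.1 := fun j => (Finset.mem_filter.1 j.2).2
  choose c hcA using hc'
  obtain ⟨μ, ν, hμ0, hν0, hμ, hν, hμν⟩ := finite_duality (I := {x // x ∈ D}) (J := J)
    (fun i j => i.1 ∈ j.1) (by
      intro i
      refine ⟨⟨A (i.1 - r • i.1), hAJ _⟩, ?_⟩
      exact Finset.mem_filter.2 ⟨i.2, i.1, hDK _ i.2, by simp⟩)
  let g : J → E := fun j => c j - (r' - r) • k₀
  let v : E → ℝ := fun x => if hx : x ∈ D then ν ⟨x, hx⟩ else 0
  have hv : ∀ i : {x // x ∈ D}, v i.1 = ν i := fun i => dif_pos i.2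
  have hsum : ∀ p : E → Prop, ∑ t ∈ (Finset.univ.image g) with p t, (∑ j with g j = t, μ j) =
      ∑ j with p (g j), μ j := by
    intro p
    rw [← Finset.sum_fiberwise_of_maps_to (s := Finset.univ.filter fun j => p (g j))
      (t := (Finset.univ.image g).filter p) (g := g) (f := μ)]
    · refine Finset.sum_congr rfl fun t ht => Finset.sum_congr ?_ fun _ _ => rfl
      ext j
      simp only [Finset.mem_filter, Finset.mem_univ, true_and]
      constructor
      · intro e
        exact ⟨by rw [e]; exact (Finset.mem_filter.1 ht).2, e⟩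
      · intro e
        exact e.2
    · intro j hj
      exact Finset.mem_filter.2 ⟨Finset.mem_image_of_mem _ (Finset.mem_univ _), (Finset.mem_filter.1 hj).2⟩
  refine ⟨Finset.univ.image g, fun t => ∑ j with g j = t, μ j, D, v, ⟨?_, ?_⟩, ⟨?_, ?_, ?_⟩, ?_⟩
  · intro t
    exact Finset.sum_nonneg fun j _ => hμ0 j
  · intro x hx
    have e1 := hsum fun t => x ∈ homothet K t r'
    obtain ⟨d, hd, k, hkK, hxk⟩ := hnet x hx
    refine (hμ ⟨d, hd⟩).trans ?_
    refine le_trans ?_ (le_of_eq e1.symm)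
    refine Finset.sum_le_sum_of_subset_of_nonneg ?_ fun j _ _ => hμ0 j
    intro j hj
    have hdj : d ∈ j.1 :=
      ((@Finset.mem_filter J (fun a => d ∈ a.1) (fun a => Classical.propDecidable (d ∈ a.1)) _ _).1 hj).2
    rw [← hcA j] at hdj
    obtain ⟨k', hk', hdk⟩ := (Finset.mem_filter.1 hdj).2
    refine Finset.mem_filter.2 ⟨Finset.mem_univ _, ?_⟩
    have hr' : 0 < r' := by linarith
    have hconv : (r / r') • k' + ((r' - r) / r') • k ∈ K := by
      refine hc hk' hkK (by positivity) (by positivity) ?_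
      rw [← add_div, add_sub_cancel, div_self hr'.ne']
    refine ⟨_, hconv, ?_⟩
    show x = c j - (r' - r) • k₀ + r' • ((r / r') • k' + ((r' - r) / r') • k)
    rw [hxk, hdk, smul_add, smul_smul, smul_smul, mul_div_cancel₀ _ hr'.ne', mul_div_cancel₀ _ hr'.ne', smul_sub]
    abel
  · intro d hd
    exact hDK d (Finset.mem_coe.1 hd)
  · intro x
    show 0 ≤ v x
    by_cases hx : x ∈ D
    · rw [hv ⟨x, hx⟩]
      exact hν0 _
    · show 0 ≤ (if hx : x ∈ D then ν ⟨x, hx⟩ else 0)
      rw [dif_neg hx]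
  · intro t
    have e1 := hν ⟨A t, hAJ t⟩
    refine le_trans (le_of_eq ?_) e1
    rw [Finset.sum_filter, ← Finset.sum_attach, Finset.sum_filter, ← Finset.univ_eq_attach]
    refine Finset.sum_congr rfl fun i _ => ?_
    rw [hv i]
    have e2 : (i.1 ∈ homothet K t r) ↔ (i.1 ∈ A t) :=
      ⟨fun h => Finset.mem_filter.2 ⟨i.2, h⟩, fun h => (Finset.mem_filter.1 h).2⟩
    by_cases h : i.1 ∈ homothet K t r
    · rw [if_pos h, if_pos (e2.1 h)]
    · rw [if_neg h, if_neg fun h' => h (e2.2 h')]
  · have e1 := hsum fun _ => True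
    simp only [Finset.filter_true] at e1
    rw [e1]
    refine hμν.trans (le_of_eq ?_)
    rw [← Finset.sum_attach D v, ← Finset.univ_eq_attach]
    exact Finset.sum_congr rfl fun i _ => (hv i).symm

end Pool.Agent.Lib.MP_825ff6_co.Pr
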