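import Pool.Agent.Lib.MP_825ff6_co.Pr.Net
import Pool.Agent.Lib.MP_825ff6_co.Pr.Left
import Pool.Agent.Lib.MP_825ff6_co.Pr.Fibre

/-!
JOB Prod. `K₁ × K₂` is tightly covered if and only if `K₁` and `K₂` are.

Proof in words. A cover `T` (all weights 1) is a fractional cover of weight `T.card`, a packing `P` (all weights 1) is a
fractional packing of weight `P.card`; every packing has at most `coveringNumber K r` points (each tile of a cover contains at most one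
point), so the maximal cardinality `p K r` of a packing exists and is at most `coveringNumber K r`; it is at least 1.
`tight_snd`. Suppose `K = K₁ × K₂` tight, `N = coveringNumber K ρ = P.card` for a packing `P`, at a ratio `ρ`; `N_i`, `p_i` the covering and
packing numbers of `K_i` at ratio `ρ`. For a fractional cover `w` of `K₂`: `N₂ p₁ ≤ N` (`mul_sum_le_card_snd` with the maximal packing of
`K₁`) and `N = P.card ≤ (∑ w) p₁` (`card_le_sum_mul_snd`), so (i) `N₂ ≤ ∑ w`. For a fractional packing `v` of `K₂`: `N₁ ∑ v ≤ N`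
(`mul_sum_le_card_fst`) and `N = P.card ≤ N₁ p₂` (`card_le_sum_mul_fst` with an optimal cover of `K₁`), `N₁ ≥ 1`, so (ii) `∑ v ≤ p₂`.
Now let `0 < r < 1` and `r < r' < 1`. Take `w` (cover of `K₂` at ratio `r'`) and `v` (packing of `K₂` at ratio `r`) from
`exists_cover_pack`: `coveringNumber K₂ r' ≤ ∑ w ≤ ∑ v ≤ p₂ (at ratio r)`. By `coveringNumber_le_of_forall`,
`coveringNumber K₂ r ≤ p₂`. So there is a packing of `K₂` at ratio `r` with exactly `coveringNumber K₂ r` points (subset of a maximal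
one; in fact equality). `tight_fst`: the same with the factors exchanged.
`tight_prod` (converse): products of optimal covers and of packings: `coveringNumber K r ≤ N₁ N₂`, and `P₁ ×ˢ P₂` is a packing of `K`
with `N₁ N₂` points; a packing has at most `coveringNumber K r` points, so equality.
-/

set_option autoImplicit false

namespace Pool.Agent.Lib.MP_825ff6_co.Pr

open Set

variable {E F : Type*} [NormedAddCommGroup E] [NormedSpace ℝ E] [NormedAddCommGroup F]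
  [NormedSpace ℝ F] {K₁ : Set E} {K₂ : Set F}

private theorem prod_mem_homothet (t z : E × F) (r : ℝ) :
    z ∈ homothet (K₁ ×ˢ K₂) t r ↔ z.1 ∈ homothet K₁ t.1 r ∧ z.2 ∈ homothet K₂ t.2 r := by
  constructor
  · rintro ⟨k, hk, rfl⟩
    exact ⟨⟨k.1, hk.1, rfl⟩, ⟨k.2, hk.2, rfl⟩⟩
  · rintro ⟨⟨a, ha, h1⟩, ⟨b, hb, h2⟩⟩
    exact ⟨(a, b), ⟨ha, hb⟩, Prod.ext h1 h2⟩

private theorem prod_pack_card_le {K : Set E} (hk : IsCompact K) (hi : (interior K).Nonempty)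
    {r : ℝ} (hr : 0 < r) {P : Finset E} (hP : IsPack K r P) : P.card ≤ coveringNumber K r := by
  obtain ⟨T, hTc, hT⟩ := coveringNumber_spec hk hi hr
  rw [← hTc]
  choose! f hf hf' using hT
  refine Finset.card_le_card_of_injOn f (fun x hx => hf x (hP.1 hx)) ?_
  intro x hx y hy hxy
  have h1 := hf' x (hP.1 hx)
  have h2 := hf' y (hP.1 hy)
  rw [← hxy] at h2
  exact hP.2 (f x) x hx y hy h1 h2

private theorem prod_frac_cover {K : Set E} {r : ℝ} {T : Finset E}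
    (hT : ∀ x ∈ K, ∃ t ∈ T, x ∈ homothet K t r) : FracCover K r T (fun _ => 1) := by
  classical
  refine ⟨fun _ => zero_le_one, fun x hx => ?_⟩
  obtain ⟨t, ht, hxt⟩ := hT x hx
  rw [Finset.sum_const, nsmul_eq_mul, mul_one]
  have h : 0 < (T.filter (fun t => x ∈ homothet K t r)).card :=
    Finset.card_pos.2 ⟨t, Finset.mem_filter.2 ⟨ht, hxt⟩⟩
  exact_mod_cast h

private theorem prod_frac_pack {K : Set E} {r : ℝ} {P : Finset E} (hP : IsPack K r P) :
    FracPack K r P (fun _ => 1) := by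
  classical
  refine ⟨hP.1, fun _ => zero_le_one, fun t => ?_⟩
  rw [Finset.sum_const, nsmul_eq_mul, mul_one]
  have h : (P.filter (fun x => x ∈ homothet K t r)).card ≤ 1 := by
    refine Finset.card_le_one.2 fun a ha b hb => ?_
    rw [Finset.mem_filter] at ha hb
    exact hP.2 t a ha.1 b hb.1 ha.2 hb.2
  exact_mod_cast h

private theorem prod_exists_max {K : Set E} (hk : IsCompact K) (hi : (interior K).Nonempty)
    {r : ℝ} (hr : 0 < r) : ∃ P : Finset E, IsPack K r P ∧ 0 < P.card ∧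
      ∀ Q : Finset E, IsPack K r Q → Q.card ≤ P.card := by
  classical
  obtain ⟨c, hc⟩ := hi
  have hcK : c ∈ K := interior_subset hc
  have hi : (interior K).Nonempty := ⟨c, hc⟩
  set S : Set ℕ := {n : ℕ | ∃ P : Finset E, IsPack K r P ∧ P.card = n} with hS
  have h1 : (1 : ℕ) ∈ S := by
    refine ⟨{c}, ⟨?_, ?_⟩, Finset.card_singleton c⟩
    · intro x hx
      rw [Finset.coe_singleton, Set.mem_singleton_iff] at hx
      rw [hx]
      exact hcK
    · intro t x hx y hy _ _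
      rw [Finset.mem_singleton] at hx hy
      rw [hx, hy]
  have hb : ∀ n ∈ S, n ≤ coveringNumber K r := by
    rintro n ⟨P, hP, rfl⟩
    exact prod_pack_card_le hk hi hr hP
  have hbd : BddAbove S := ⟨coveringNumber K r, hb⟩
  have hmem : sSup S ∈ S := Nat.sSup_mem ⟨1, h1⟩ hbd
  obtain ⟨P, hP, hPc⟩ := hmem
  refine ⟨P, hP, ?_, fun Q hQ => ?_⟩
  · have h2 : 1 ≤ sSup S := le_csSup hbd h1
    omega
  · rw [hPc]
    exact le_csSup hbd ⟨Q, hQ, rfl⟩

private theorem prod_final {K : Set E} (hc : Convex ℝ K) (hk : IsCompact K)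
    (hi : (interior K).Nonempty)
    (h1 : ∀ ρ : ℝ, 0 < ρ → ρ < 1 → ∀ (T : Finset E) (w : E → ℝ), FracCover K ρ T w →
      (coveringNumber K ρ : ℝ) ≤ ∑ t ∈ T, w t)
    (h2 : ∀ ρ : ℝ, 0 < ρ → ρ < 1 → ∀ (S : Finset E) (v : E → ℝ), FracPack K ρ S v →
      ∀ p : ℕ, (∀ Q : Finset E, IsPack K ρ Q → Q.card ≤ p) → ∑ x ∈ S, v x ≤ p) :
    TightlyCovered K := by
  intro r hr hr1
  obtain ⟨P, hP, -, hmax⟩ := prod_exists_max hk hi hr
  refine ⟨P, hP.1, le_antisymm (prod_pack_card_le hk hi hr hP) ?_, hP.2⟩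
  refine coveringNumber_le_of_forall hk hi hr hr1 fun r' hrr' hr'1 => ?_
  obtain ⟨T, w, S, v, hw, hv, hle⟩ := exists_cover_pack hc hk hi hr hrr'
  have h3 := h1 r' (hr.trans hrr') hr'1 T w hw
  have h4 := h2 r hr hr1 S v hv P.card hmax
  exact_mod_cast (h3.trans hle).trans h4

private theorem prod_interior (hi₁ : (interior K₁).Nonempty) (hi₂ : (interior K₂).Nonempty) :
    (interior (K₁ ×ˢ K₂)).Nonempty := by
  rw [interior_prod_eq]
  exact hi₁.prod hi₂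

private theorem prod_num_pos {K : Set E} (hk : IsCompact K) (hi : (interior K).Nonempty)
    {r : ℝ} (hr : 0 < r) : 0 < coveringNumber K r := by
  obtain ⟨P, hP, hpos, -⟩ := prod_exists_max hk hi hr
  exact hpos.trans_le (prod_pack_card_le hk hi hr hP)

theorem tight_snd (hc₁ : Convex ℝ K₁) (hk₁ : IsCompact K₁) (hi₁ : (interior K₁).Nonempty)
    (hc₂ : Convex ℝ K₂) (hk₂ : IsCompact K₂) (hi₂ : (interior K₂).Nonempty)
    (h : TightlyCovered (K₁ ×ˢ K₂)) : TightlyCovered K₂ := by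
  refine prod_final hc₂ hk₂ hi₂ ?_ ?_
  · intro ρ hρ hρ1 T₂ w hw
    obtain ⟨P, hPs, hPc, hP⟩ := h ρ hρ hρ1
    obtain ⟨T, hTc, hT⟩ := coveringNumber_spec (hk₁.prod hk₂) (prod_interior hi₁ hi₂) hρ
    obtain ⟨P₁, hP₁, hpos, hmax⟩ := prod_exists_max hk₁ hi₁ hρ
    have h1 := mul_sum_le_card_snd T hT (prod_frac_pack hP₁)
    have h2 := card_le_sum_mul_snd (K₁ := K₁) (K₂ := K₂) (P := P) ⟨hPs, hP⟩ hw hmax
    rw [Finset.sum_const, nsmul_eq_mul, mul_one, hTc, ← hPc] at h1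
    have h3 := h1.trans h2
    have h4 : (0 : ℝ) < (P₁.card : ℝ) := by exact_mod_cast hpos
    exact le_of_mul_le_mul_right h3 h4
  · intro ρ hρ hρ1 S v hv p hp
    obtain ⟨P, hPs, hPc, hP⟩ := h ρ hρ hρ1
    obtain ⟨T, hTc, hT⟩ := coveringNumber_spec (hk₁.prod hk₂) (prod_interior hi₁ hi₂) hρ
    obtain ⟨T₁, hT₁c, hT₁⟩ := coveringNumber_spec hk₁ hi₁ hρ
    have h1 := mul_sum_le_card_fst T hT hv
    have h2 := card_le_sum_mul_fst (K₁ := K₁) (K₂ := K₂) (P := P) ⟨hPs, hP⟩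
      (prod_frac_cover hT₁) hp
    rw [Finset.sum_const, nsmul_eq_mul, mul_one, hT₁c] at h2
    rw [hTc, ← hPc] at h1
    have h3 := h1.trans h2
    have h4 : (0 : ℝ) < (coveringNumber K₁ ρ : ℝ) := by
      exact_mod_cast prod_num_pos hk₁ hi₁ hρ
    exact le_of_mul_le_mul_left h3 h4

theorem tight_fst (hc₁ : Convex ℝ K₁) (hk₁ : IsCompact K₁) (hi₁ : (interior K₁).Nonempty)
    (hc₂ : Convex ℝ K₂) (hk₂ : IsCompact K₂) (hi₂ : (interior K₂).Nonempty)
    (h : TightlyCovered (K₁ ×ˢ K₂)) : TightlyCovered K₁ := by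
  refine prod_final hc₁ hk₁ hi₁ ?_ ?_
  · intro ρ hρ hρ1 T₂ w hw
    obtain ⟨P, hPs, hPc, hP⟩ := h ρ hρ hρ1
    obtain ⟨T, hTc, hT⟩ := coveringNumber_spec (hk₁.prod hk₂) (prod_interior hi₁ hi₂) hρ
    obtain ⟨P₁, hP₁, hpos, hmax⟩ := prod_exists_max hk₂ hi₂ hρ
    have h1 := mul_sum_le_card_fst T hT (prod_frac_pack hP₁)
    have h2 := card_le_sum_mul_fst (K₁ := K₁) (K₂ := K₂) (P := P) ⟨hPs, hP⟩ hw hmax
    rw [Finset.sum_const, nsmul_eq_mul, mul_one, hTc, ← hPc] at h1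
    have h3 := h1.trans h2
    have h4 : (0 : ℝ) < (P₁.card : ℝ) := by exact_mod_cast hpos
    exact le_of_mul_le_mul_right h3 h4
  · intro ρ hρ hρ1 S v hv p hp
    obtain ⟨P, hPs, hPc, hP⟩ := h ρ hρ hρ1
    obtain ⟨T, hTc, hT⟩ := coveringNumber_spec (hk₁.prod hk₂) (prod_interior hi₁ hi₂) hρ
    obtain ⟨T₁, hT₁c, hT₁⟩ := coveringNumber_spec hk₂ hi₂ hρ
    have h1 := mul_sum_le_card_snd T hT hv
    have h2 := card_le_sum_mul_snd (K₁ := K₁) (K₂ := K₂) (P := P) ⟨hPs, hP⟩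
      (prod_frac_cover hT₁) hp
    rw [Finset.sum_const, nsmul_eq_mul, mul_one, hT₁c] at h2
    rw [hTc, ← hPc] at h1
    have h3 := h1.trans h2
    have h4 : (0 : ℝ) < (coveringNumber K₂ ρ : ℝ) := by
      exact_mod_cast prod_num_pos hk₂ hi₂ hρ
    exact le_of_mul_le_mul_left h3 h4

theorem tight_prod (hc₁ : Convex ℝ K₁) (hk₁ : IsCompact K₁) (hi₁ : (interior K₁).Nonempty)
    (hc₂ : Convex ℝ K₂) (hk₂ : IsCompact K₂) (hi₂ : (interior K₂).Nonempty)
    (h₁ : TightlyCovered K₁) (h₂ : TightlyCovered K₂) : TightlyCovered (K₁ ×ˢ K₂) := by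
  classical
  intro r hr hr1
  obtain ⟨P₁, hPs₁, hPc₁, hP₁⟩ := h₁ r hr hr1
  obtain ⟨P₂, hPs₂, hPc₂, hP₂⟩ := h₂ r hr hr1
  obtain ⟨T₁, hTc₁, hT₁⟩ := coveringNumber_spec hk₁ hi₁ hr
  obtain ⟨T₂, hTc₂, hT₂⟩ := coveringNumber_spec hk₂ hi₂ hr
  have hpack : IsPack (K₁ ×ˢ K₂) r (P₁ ×ˢ P₂) := by
    refine ⟨?_, ?_⟩
    · intro z hz
      have hz' := Finset.mem_product.1 (Finset.mem_coe.1 hz)
      exact ⟨hPs₁ hz'.1, hPs₂ hz'.2⟩
    · intro t x hx y hy hxt hyt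
      have hx' := Finset.mem_product.1 hx
      have hy' := Finset.mem_product.1 hy
      rw [prod_mem_homothet] at hxt hyt
      exact Prod.ext (hP₁ t.1 x.1 hx'.1 y.1 hy'.1 hxt.1 hyt.1)
        (hP₂ t.2 x.2 hx'.2 y.2 hy'.2 hxt.2 hyt.2)
  have hcard : (P₁ ×ˢ P₂).card = coveringNumber K₁ r * coveringNumber K₂ r := by
    rw [Finset.card_product, hPc₁, hPc₂]
  have hle : coveringNumber (K₁ ×ˢ K₂) r ≤ coveringNumber K₁ r * coveringNumber K₂ r := by
    refine Nat.sInf_le ⟨T₁ ×ˢ T₂, ?_, ?_⟩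
    · rw [Finset.card_product, hTc₁, hTc₂]
    · intro z hz
      obtain ⟨t₁, ht₁, hz₁⟩ := hT₁ z.1 hz.1
      obtain ⟨t₂, ht₂, hz₂⟩ := hT₂ z.2 hz.2
      exact ⟨(t₁, t₂), Finset.mem_product.2 ⟨ht₁, ht₂⟩, (prod_mem_homothet _ _ _).2 ⟨hz₁, hz₂⟩⟩
  refine ⟨P₁ ×ˢ P₂, hpack.1, ?_, hpack.2⟩
  refine le_antisymm (prod_pack_card_le (hk₁.prod hk₂) (prod_interior hi₁ hi₂) hr hpack) ?_
  rw [hcard]
  exact hle

end Pool.Agent.Lib.MP_825ff6_co.Pr
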